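import Pool.Agent.P8H77.EE.Last

/-!
# MP_794bd6_an, Q1: the answer is negative

`f s = (s_i (1 + (s_{i+1}^2 - s_{i+2}^2)/2)^{1/2})_i`, `i` modulo 3, is a real analytic diffeomorphism
of the unit sphere of `ℝ³` (the rock-paper-scissors map: on the simplex of the `x_i = s_i^2` it is the
Volterra map `x_i ↦ x_i (1 + (x_{i+1} - x_{i+2})/2)`). The product of the coordinates decreases strictly
in absolute value except at the eight sources `(±1, ±1, ±1)/√3` and on the three coordinate great
circles, where all orbits are asymptotic to the six saddles `±e_i`. So every invariant probability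
measure sits on these 14 fixed points; its entropy is zero, while each of the fixed points has a
positive exponent: the saddles have the exponents `log √(3/2)`, `log √(1/2)`, the sources have the
exponent `log √(13/12)` with multiplicity two.
-/

set_option autoImplicit false

open Metric MeasureTheory Filter Topology
open scoped Manifold ContDiff ENNReal

namespace Pool.Agent.Results.MP_794bd6_an.RockPaperScissors

open Pool.Agent.P8H77.EE (StrictForAllInvariant ksEntropy)

/-- There is a real analytic diffeomorphism `f` of the unit sphere of `ℝ³` and a constant `c > 0` such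
that for every `f`-invariant Borel probability measure `ρ`, and every Riemannian metric, the sum `χ` of
the positive characteristic exponents (with multiplicity) exists `ρ`-almost everywhere, is integrable,
and satisfies `h(ρ) < ∫ χ dρ`, and even `h(ρ) + c ≤ ∫ χ dρ`. -/
theorem result :
    ∃ (f : Diffeomorph (𝓡 2) (𝓡 2) (sphere (0 : EuclideanSpace ℝ (Fin 3)) 1)
        (sphere (0 : EuclideanSpace ℝ (Fin 3)) 1) ω) (c : ℝ), 0 < c ∧
      StrictForAllInvariant (𝓡 2) f.toEquiv c := by
  refine ⟨Pool.Agent.P8H77.EE.rps, Pool.Agent.P8H77.EE.c0, Pool.Agent.P8H77.EE.c0_pos,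
    fun ρ hρ hf g => ?_⟩
  have hf' : MeasurePreserving Pool.Agent.P8H77.EE.f0 ρ ρ := hf
  obtain ⟨h1, h2⟩ := Pool.Agent.P8H77.EE.final hf' g
  refine ⟨h1, fun χ hχ => ?_⟩
  have h3 := h2 χ hχ
  have h4 : ksEntropy ρ Pool.Agent.P8H77.EE.f0 = 0 :=
    Pool.Agent.P8H77.EE.entropy_zero (f := Pool.Agent.P8H77.EE.f0) (Pool.Agent.P8H77.EE.ae_fix hf')
  refine ⟨Pool.Agent.P8H77.EE.integ hf' χ, ?_⟩
  show ksEntropy ρ Pool.Agent.P8H77.EE.f0 < _ ∧ ksEntropy ρ Pool.Agent.P8H77.EE.f0 + _ ≤ _
  rw [h4, zero_add]
  exact ⟨ENNReal.ofReal_pos.2 (lt_of_lt_of_le Pool.Agent.P8H77.EE.c0_pos h3),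
    ENNReal.ofReal_le_ofReal h3⟩

end Pool.Agent.Results.MP_794bd6_an.RockPaperScissors
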